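import Pool.Agent.MP_7b45f6_mp.H32.Spec

/-!
# Row POLY: the two bounds for polygons
-/

set_option autoImplicit false

namespace Pool.Agent.MP_7b45f6_mp.H32

open Classical Filter Topology

namespace POLY

/-- The weight of a polygon. -/
noncomputable def wt (a b : ℝ) (E : Finset (Sym2 P)) : ℝ :=
  Real.exp (a * visits (verts E) + b * contacts (verts E) E)

theorem closed_iff {w : List P} (hw : w ≠ []) :
    (w ++ w.take 1).IsChain Adj ↔ w.IsChain Adj ∧ Adj (lt w) (hd w) := by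
  have e : w.take 1 = [hd w] := by
    cases w with
    | nil => exact absurd rfl hw
    | cons p l => simp
  rw [e, ← jn_eq_zero, ← jn_eq_zero, jn, jn, cs_append _ hw (by simp), hd_cons, cs_single]
  by_cases h : Adj (lt w) (hd w)
  · simp [jmp_adj h, h]
  · simp [jmp_not h, h]

theorem wt_eq (hc : ConvStmt) (a b l : ℝ) {w : List P} (h3 : 3 ≤ w.length) (hn : w.Nodup)
    (h : (w ++ w.take 1).IsChain Adj) :
    wt a b (edges (w ++ w.take 1)) = Real.exp ((l - b) * w.length) * ew ⟨a, b, l⟩ w := by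
  obtain ⟨h1, h2⟩ := hc.2.1 w h3 hn h
  rw [wt, ew, ← Real.exp_add, h1, phi, ← h2, List.toFinset_card_of_nodup hn]
  congr 1
  push_cast
  ring

theorem ne_nil {w : List P} (h3 : 3 ≤ w.length) : w ≠ [] := by
  rintro rfl
  simp at h3

theorem verts_box (hc : ConvStmt) {n : ℕ} {E : Finset (Sym2 P)} (hE : E ∈ Polys n) {p : P}
    (hp : p ∈ verts E) : p ∈ box (2 * n) := by
  obtain ⟨⟨w, rfl, h3, hn, h, rfl⟩, -, h0, h1, h2⟩ := hE
  obtain ⟨q2, hq2⟩ := Finset.card_pos.1 (lt_of_lt_of_le two_pos h2)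
  have h4 : ∀ i : Fin 3, ∃ q ∈ verts (edges (w ++ w.take 1)), q i = 0 := fun i => by
    fin_cases i
    exacts [h0, h1, ⟨q2, Finset.mem_filter.1 hq2⟩]
  have h5 := len_of_chain ((closed_iff (ne_nil h3)).1 h).1
  rw [(hc.2.1 w h3 hn h).1] at hp h4
  refine mem_box.2 fun i => ?_
  obtain ⟨q, hq, e⟩ := h4 i
  have a1 := d1_hd_le_len (List.mem_toFinset.1 hp)
  have a2 := d1_hd_le_len (List.mem_toFinset.1 hq)
  have a3 := coord_le_d1 (hd w) p i
  have a4 := coord_le_d1 (hd w) q i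
  omega

theorem finite_polys (hc : ConvStmt) (n : ℕ) : (Polys n).Finite := by
  refine (Finset.finite_toSet (box (2 * n)).sym2.powerset).subset fun E hE => ?_
  refine Finset.mem_coe.2 (Finset.mem_powerset.2 fun e he => Finset.mem_sym2_iff.2 fun p hp => ?_)
  exact verts_box hc hE (Finset.mem_biUnion.2 ⟨e, he, Sym2.mem_toFinset.2 hp⟩)

theorem Zp_eq (hc : ConvStmt) (n : ℕ) (a b : ℝ) :
    Zp n a b = ∑ E ∈ (finite_polys hc n).toFinset, wt a b E :=
  finsum_mem_eq_finite_toFinset_sum _ _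

theorem Zp_le (hc : ConvStmt) {n : ℕ} {a b G : ℝ} (h : Bd (Polys n) (wt a b) G) :
    Zp n a b ≤ G := by
  rw [Zp_eq hc]
  exact h _ (by simp)

theorem le_Zp (hc : ConvStmt) {n : ℕ} {a b G : ℝ} (h : Lb (Polys n) (wt a b) G) :
    G ≤ Zp n a b := by
  obtain ⟨s, hs, h⟩ := h
  rw [Zp_eq hc]
  exact h.trans (Finset.sum_le_sum_of_subset_of_nonneg
    (fun E hE => (Set.Finite.mem_toFinset _).2 (hs hE)) fun _ _ _ => (Real.exp_pos _).le)

theorem upper (hc : ConvStmt) {a b l G : ℝ} {n : ℕ} (h : ∀ p, Bd (Tour p n) (ew ⟨a, b, l⟩) G) :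
    Bd (Polys n) (wt a b)
      (Real.exp ((l - b) * n) * (1 : ℕ) * (((2 * (2 * n) + 1) ^ 3 : ℕ) * G)) := by
  have h1 : Bd {w | w ∈ Tour (hd w) n ∧ hd w ∈ box (2 * n)} (ew ⟨a, b, l⟩)
      (((2 * (2 * n) + 1) ^ 3 : ℕ) * G) := by
    refine Bd.classify hd (h 0).nonneg (fun t ht => ?_) fun p =>
      (h p).mono (fun w hw => hw.2 ▸ hw.1.1) (fun _ _ => le_rfl) le_rfl
    rw [← card_box]
    refine Finset.card_le_card fun p hp => ?_
    obtain ⟨w, hw, rfl⟩ := ht p hp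
    exact hw.2
  refine h1.transfer (fan_fun fun w : List P => edges (w ++ w.take 1)) (Real.exp_pos _).le
    (fun w => (ew_pos _ w).le) fun E hE => ?_
  have hb := fun p => verts_box hc hE (p := p)
  obtain ⟨⟨w, rfl, h3, hn, h2, rfl⟩, h4, -⟩ := hE
  rw [(hc.2.1 w h3 hn h2).1] at hb h4
  obtain ⟨h5, h6⟩ := (closed_iff (ne_nil h3)).1 h2
  exact ⟨w, ⟨⟨⟨hn, fun p hp => h4 p (List.mem_toFinset.2 hp) 2⟩, rfl, rfl, h5, h6⟩,
    hb _ (List.mem_toFinset.2 (hd_mem (ne_nil h3)))⟩, rfl, (wt_eq hc a b l h3 hn h2).le⟩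

theorem two_visits {n : ℕ} {w : List P} (h : w ∈ Tour 0 n) (hn : 3 ≤ n) :
    ∃ p ∈ w, ∃ q ∈ w, p ≠ q ∧ p 2 = 0 ∧ q 2 = 0 := by
  have hw : w ≠ [] := ne_nil (h.2.1 ▸ hn)
  obtain ⟨u, v, rfl, h1, h2⟩ := ext_edge h hn 2
  have h3 := Tour.rot h
  have h4 : v ++ u ≠ [] := ne_nil (h3.2.1 ▸ hn)
  have h5 : ∀ q, q ∈ v ++ u → q ∈ u ++ v := fun q => List.perm_append_comm.mem_iff.1
  have h6 := h2 _ (hd_mem hw)
  rw [h.2.2.1] at h6
  have h7 := h3.1.2 _ (hd_mem h4)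
  have h8 : hd (v ++ u) 2 = 0 := le_antisymm h6 h7
  exact ⟨_, h5 _ (lt_mem h4), _, h5 _ (hd_mem h4), h3.2.2.2.2.ne, h1 ▸ h8, h8⟩

theorem lower (hc : ConvStmt) {a b l G : ℝ} {n : ℕ} (hn : 3 ≤ n)
    (h : Lb (Tour 0 n) (ew ⟨a, b, l⟩) G) :
    Lb (Polys n) (wt a b) (G / (Real.exp (-((l - b) * n)) * (n ^ 2 * 1 : ℕ))) := by
  refine h.transfer ((hc.2.2 n).comp (fan_fun fun w' : List P => w'.map fun p => p - hd w'))
    (Real.exp_pos _) (by positivity) (fun _ => (Real.exp_pos _).le) fun w hw => ?_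
  obtain ⟨p1, hp1, p2, hp2, hne, e1, e2⟩ := two_visits hw hn
  obtain ⟨⟨h1, h2⟩, rfl, h4, h5, h6⟩ := hw
  have hw : w ≠ [] := ne_nil hn
  have hmin : ∀ i : Fin 3, ∃ x ∈ w, ∀ q ∈ w, x i ≤ q i := fun i => by
    simpa using Finset.exists_min_image w.toFinset (fun q => q i)
      ⟨hd w, List.mem_toFinset.2 (hd_mem hw)⟩
  obtain ⟨x, hx, hx'⟩ := hmin 0
  obtain ⟨y, hy, hy'⟩ := hmin 1
  obtain ⟨t, t0, t1, t2⟩ : ∃ t : P, t 0 = -x 0 ∧ t 1 = -y 1 ∧ t 2 = 0 :=
    ⟨![-x 0, -y 1, 0], rfl, rfl, rfl⟩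
  obtain ⟨w', hw'⟩ : ∃ w', w' = w.map fun p => p + t := ⟨_, rfl⟩
  have l1 : w'.length = w.length := by rw [hw', List.length_map]
  have n3 : 3 ≤ w'.length := l1 ▸ hn
  have n1 : w'.Nodup := by rw [hw']; exact h1.map (add_left_injective t)
  have c1 : (w' ++ w'.take 1).IsChain Adj := by
    rw [hw', ← List.map_take, ← List.map_append, List.isChain_map]
    exact ((closed_iff hw).2 ⟨h5, h6⟩).imp fun p q hpq => (adj_add p q t).2 hpq
  have m1 : ∀ p ∈ w, p + t ∈ w'.toFinset := fun p hp => by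
    rw [hw', List.mem_toFinset]; exact List.mem_map_of_mem hp
  refine ⟨edges (w' ++ w'.take 1), ⟨⟨w', l1, hn, n1, c1, rfl⟩, ?_⟩,
    ⟨w', ⟨l1, hn, n1, rfl⟩, ?_⟩, ?_⟩
  · rw [(hc.2.1 w' n3 n1 c1).1]
    refine ⟨fun p hp i => ?_, ⟨_, m1 x hx, by simp [t0]⟩, ⟨_, m1 y hy, by simp [t1]⟩, ?_⟩
    · rw [hw', List.mem_toFinset, List.mem_map] at hp
      obtain ⟨q, hq, rfl⟩ := hp
      have a0 := hx' q hq
      have a1 := hy' q hq
      have a2 := h2 q hq
      have a3 : ∀ j : Fin 3, j = 0 ∨ j = 1 ∨ j = 2 := by decide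
      rcases a3 i with rfl | rfl | rfl <;> rw [Pi.add_apply] <;> omega
    · exact Finset.one_lt_card.2 ⟨_, Finset.mem_filter.2 ⟨m1 p1 hp1, by simp [e1, t2]⟩, _,
        Finset.mem_filter.2 ⟨m1 p2 hp2, by simp [e2, t2]⟩, fun e => hne (add_right_cancel e)⟩
  · rw [hw', hd_map _ hw, h4, List.map_map]
    simp [Function.comp_def]
  · rw [wt_eq hc a b l n3 n1 c1, l1, ← mul_assoc, ← Real.exp_add, neg_add_cancel, Real.exp_zero,
      one_mul, hw', ew, ew, phi_map _ (fun p q => d1_add p q t) fun p => by simp [t2]]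

end POLY

open POLY

theorem poly_of : ConvStmt → PolyStmt := by
  intro hc a b l
  refine ⟨?_, fun h δ hδ => ?_⟩
  · rintro ⟨C, hC⟩ δ hδ
    filter_upwards [ev_poly |C| 4 5 hδ] with n hn
    refine (Zp_le hc (upper hc fun p => hC p n)).trans ?_
    rw [add_mul, Real.exp_add, Nat.cast_one, mul_one]
    refine mul_le_mul_of_nonneg_left (le_trans ?_ hn) (Real.exp_pos _).le
    have h0 : (0 : ℝ) ≤ n := Nat.cast_nonneg n
    push_cast
    calc (2 * (2 * (n : ℝ)) + 1) ^ 3 * (C * ((n : ℝ) + 3) ^ 2)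
        ≤ (4 * n + 4) ^ 3 * (|C| * (4 * n + 4) ^ 2) := by
          refine mul_le_mul (pow_le_pow_left₀ (by positivity) (by linarith) _)
            (mul_le_mul (le_abs_self _) (pow_le_pow_left₀ (by positivity) (by linarith) _)
              (by positivity) (abs_nonneg _)) (hC 0 n).nonneg (by positivity)
      _ = |C| * (4 * n + 4) ^ 5 := by ring
  · have ht : Tendsto (fun m : ℕ => 2 * m) atTop atTop :=
      tendsto_id.const_mul_atTop' two_pos
    filter_upwards [h, ht.eventually (ev_poly 1 1 2 hδ), eventually_ge_atTop 2] with m h1 h2 h3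
    refine le_trans ?_ (le_Zp hc (lower hc (by omega) h1))
    have h4 : 0 < 2 * m := by omega
    generalize 2 * m = n at h2 h4 ⊢
    have h0 : (0 : ℝ) < n := by exact_mod_cast h4
    rw [le_div_iff₀ (by positivity), ← mul_assoc, ← Real.exp_add,
      show (l - b - δ) * n + -((l - b) * n) = -(δ * n) by ring, Real.exp_neg,
      inv_mul_le_iff₀ (Real.exp_pos _), mul_one (Real.exp _)]
    refine le_trans ?_ h2
    push_cast
    nlinarith

end Pool.Agent.MP_7b45f6_mp.H32
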